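import Mathlib
import Pool.Agent.H.MP_8a294c_nt.A

set_option autoImplicit false

namespace Pool.Agent.Results.MP_8a294c_nt.Unbounded

open PowerSeries

/-- the coefficient of `x ^ n` in `(1 - x) ^ (-m)` times the product of the `(1 - x ^ 2 ^ i) ^ (-m)` -/
noncomputable def c (m n : ℕ) : ℤ :=
  coeff n ((PowerSeries.mk fun _ : ℕ => (1 : ℤ)) ^ m * ∏ i ∈ Finset.range (n + 1),
    (PowerSeries.mk fun j : ℕ => if 2 ^ i ∣ j then (1 : ℤ) else 0) ^ m)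

theorem result : ∃ k : ℕ, 1 ≤ k ∧ ∀ C : ℕ, ∃ n : ℕ, 1 ≤ n ∧ ∃ (e : ℕ) (q : ℤ),
    c (2 ^ (2 * k) - 1) n = 2 ^ e * q ∧ Odd q ∧ (C : ℕ∞) < emultiplicity 2 (q - 1) := by
  refine ⟨5, by norm_num, fun C => ?_⟩
  have e : (PowerSeries.mk fun _ : ℕ => (1 : ℤ)) = Pool.Agent.Lib.helper11.Mahler.geo ℤ 1 := by
    ext j
    simp [Pool.Agent.Lib.helper11.Mahler.geo]
  obtain ⟨n, hn, h⟩ := Pool.Agent.H.MP_8a294c_nt.main C
  obtain ⟨j, hj⟩ := h.symm.dvd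
  have h1 : c (2 ^ (2 * 5) - 1) n = Pool.Agent.H.MP_8a294c_nt.c 1023 n := by
    rw [c, e]
    rfl
  refine ⟨n, hn, 11, 1 + 2 ^ (C + 12) * j, by linear_combination h1 + hj,
    ⟨2 ^ (C + 11) * j, by ring⟩, lt_of_lt_of_le ?_ (le_emultiplicity_of_pow_dvd (k := C + 12) ?_)⟩
  · exact_mod_cast (by omega : C < C + 12)
  · rw [add_sub_cancel_left]
    exact dvd_mul_right _ _

end Pool.Agent.Results.MP_8a294c_nt.Unbounded
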